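import Pool.Agent.Y41.EV.StmL

/-!
Project EV (helper41): fast times, probability at mesh `δ`.
-/

set_option autoImplicit false

namespace Pool.Agent.Y858.EV

open H974 Finset H342P H984P H984N Y994.MC Pool.Agent.Y985.ME Pool.Agent.Y884.ME
open Pool.Agent.Y995.FS Pool.Agent.Y995.HG MeasureTheory Filter Topology Pool.Agent.Y41.EV

theorem pr_le_ex' {p : Edg → ℝ} (hp : Ok p) {S : Finset Edg} {A : Finset Edg → Prop}
    {g : Finset Edg → ℝ} {b : ℝ} (hb : 0 < b) (hg : ∀ F, 0 ≤ g F)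
    (h : ∀ F ⊆ S, A F → b ≤ g F) : Pr p S A ≤ Ex p S g / b := by
  rw [le_div_iff₀ hb, mul_comm]
  unfold Pr
  rw [← Ex_mul_left]
  refine Ex_mono hp fun F hF => ?_
  by_cases hA : A F
  · rw [ind_of hA, mul_one]
    exact h F hF hA
  · rw [ind_not_of hA, mul_zero]
    exact hg F

/-- The choice of `m`, `N` and `x`. -/
theorem choice {y h C1 S : ℝ} (hy : 0 < y) (hh : 0 < h) (hC1 : 0 < C1) (hyS : y ≤ S)
    (hB : 2 * 8 ^ (7/4 : ℝ) * h ≤ y ^ (7/4 : ℝ)) :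
    ∃ δ1 : ℝ, 0 < δ1 ∧ ∀ δ : ℝ, 0 < δ → δ ≤ δ1 → ∃ (m N : ℕ) (x : ℝ), 0 < x ∧ x ≤ 1 ∧
      C1 * x ^ (-(4/3) : ℝ) ≤ m ∧ 4 * (m : ℝ) ≤ S / δ ∧ (N : ℝ) ≤ x * (m : ℝ) ^ (7/4 : ℝ) ∧
      (2 * (m : ℝ) + 2) * δ ≤ y ∧ h ≤ N * δ ^ (7/4 : ℝ) ∧
      (y ^ (7/4 : ℝ) / h) ^ (4/3 : ℝ) / (2 * 8 ^ (7/4 : ℝ)) ^ (4/3 : ℝ) ≤ x ^ (-(4/3) : ℝ) := by
  obtain ⟨Z, hZ⟩ : ∃ Z : ℝ, Z = (y ^ (7/4 : ℝ) / h) ^ (4/3 : ℝ) := ⟨_, rfl⟩
  have hy7 : 0 < y ^ (7/4 : ℝ) := Real.rpow_pos_of_pos hy _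
  have hZ0 : 0 < Z := by rw [hZ]; positivity
  refine ⟨min (y / 8) (min (h ^ (4/7 : ℝ)) (y / (8 * (C1 * Z)))),
    lt_min (by positivity) (lt_min (by positivity) (by positivity)), fun δ hδ hδ' => ?_⟩
  have hd1 : δ ≤ y / 8 := hδ'.trans (min_le_left _ _)
  have hd2 : δ ≤ h ^ (4/7 : ℝ) := hδ'.trans ((min_le_right _ _).trans (min_le_left _ _))
  have hd3 : δ ≤ y / (8 * (C1 * Z)) := hδ'.trans ((min_le_right _ _).trans (min_le_right _ _))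
  have hδ7 : 0 < δ ^ (7/4 : ℝ) := Real.rpow_pos_of_pos hδ _
  have hdh : δ ^ (7/4 : ℝ) ≤ h := by
    have h1 := Real.rpow_le_rpow hδ.le hd2 (by norm_num : (0:ℝ) ≤ 7/4)
    rwa [← Real.rpow_mul hh.le, show (4/7 : ℝ) * (7/4) = 1 by norm_num, Real.rpow_one] at h1
  have hu : 2 ≤ y / (4 * δ) := by
    rw [le_div_iff₀ (by positivity)]; linarith
  obtain ⟨m, hm⟩ : ∃ m : ℕ, m = ⌊y / (4 * δ)⌋₊ := ⟨_, rfl⟩
  obtain ⟨N, hN⟩ : ∃ N : ℕ, N = ⌈h / δ ^ (7/4 : ℝ)⌉₊ := ⟨_, rfl⟩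
  have hm1 : (m : ℝ) ≤ y / (4 * δ) := by rw [hm]; exact Nat.floor_le (by positivity)
  have hm2 : y / (8 * δ) ≤ m := by
    have h1 : y / (4 * δ) < m + 1 := by rw [hm]; exact Nat.lt_floor_add_one _
    have h2 : y / (8 * δ) = y / (4 * δ) / 2 := by field_simp; norm_num
    rw [h2]
    linarith
  have hm0 : (0 : ℝ) < m := lt_of_lt_of_le (by positivity) hm2
  have hN1 : h / δ ^ (7/4 : ℝ) ≤ N := by rw [hN]; exact Nat.le_ceil _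
  have hN2 : (N : ℝ) ≤ 2 * h / δ ^ (7/4 : ℝ) := by
    have h1 : (N : ℝ) < h / δ ^ (7/4 : ℝ) + 1 := by
      rw [hN]; exact Nat.ceil_lt_add_one (by positivity)
    have h2 : 1 ≤ h / δ ^ (7/4 : ℝ) := by rw [le_div_iff₀ hδ7]; linarith
    have h3 : 2 * h / δ ^ (7/4 : ℝ) = 2 * (h / δ ^ (7/4 : ℝ)) := by ring
    rw [h3]
    linarith
  have hN0 : (0 : ℝ) < N := lt_of_lt_of_le (by positivity) hN1
  have hm7 : 0 < (m : ℝ) ^ (7/4 : ℝ) := Real.rpow_pos_of_pos hm0 _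
  obtain ⟨x, hx⟩ : ∃ x : ℝ, x = N / (m : ℝ) ^ (7/4 : ℝ) := ⟨_, rfl⟩
  have hx0 : 0 < x := by rw [hx]; positivity
  obtain ⟨B, hB'⟩ : ∃ B : ℝ, B = 2 * 8 ^ (7/4 : ℝ) := ⟨_, rfl⟩
  have hB0 : 0 < B := by rw [hB']; positivity
  have hxu : x ≤ B * h / y ^ (7/4 : ℝ) := by
    have h1 : (y / (8 * δ)) ^ (7/4 : ℝ) ≤ (m : ℝ) ^ (7/4 : ℝ) :=
      Real.rpow_le_rpow (by positivity) hm2 (by norm_num)
    rw [Real.div_rpow hy.le (by positivity), Real.mul_rpow (by norm_num) hδ.le] at h1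
    rw [hx, div_le_div_iff₀ hm7 hy7]
    have h2 : y ^ (7/4 : ℝ) ≤ (m : ℝ) ^ (7/4 : ℝ) * (8 ^ (7/4 : ℝ) * δ ^ (7/4 : ℝ)) := by
      rwa [div_le_iff₀ (by positivity)] at h1
    calc (N : ℝ) * y ^ (7/4 : ℝ) ≤ (2 * h / δ ^ (7/4 : ℝ)) *
        ((m : ℝ) ^ (7/4 : ℝ) * (8 ^ (7/4 : ℝ) * δ ^ (7/4 : ℝ))) :=
          mul_le_mul hN2 h2 hy7.le (by positivity)
      _ = B * h * (m : ℝ) ^ (7/4 : ℝ) := by rw [hB']; field_simp
  have hxl : h / y ^ (7/4 : ℝ) ≤ x := by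
    have h1 : (m : ℝ) ^ (7/4 : ℝ) ≤ (y / δ) ^ (7/4 : ℝ) := by
      refine Real.rpow_le_rpow hm0.le (hm1.trans ?_) (by norm_num)
      exact div_le_div_of_nonneg_left hy.le hδ (by linarith)
    rw [Real.div_rpow hy.le hδ.le] at h1
    rw [hx, div_le_div_iff₀ hy7 hm7]
    calc h * (m : ℝ) ^ (7/4 : ℝ) ≤ h * (y ^ (7/4 : ℝ) / δ ^ (7/4 : ℝ)) :=
          mul_le_mul_of_nonneg_left h1 hh.le
      _ = h / δ ^ (7/4 : ℝ) * y ^ (7/4 : ℝ) := by ring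
      _ ≤ N * y ^ (7/4 : ℝ) := mul_le_mul_of_nonneg_right hN1 hy7.le
  have hneg : ∀ z : ℝ, 0 < z → z ^ (-(4/3) : ℝ) = (1 / z) ^ (4/3 : ℝ) := by
    intro z hz
    rw [Real.rpow_neg hz.le, one_div, Real.inv_rpow hz.le]
  refine ⟨m, N, x, hx0, ?_, ?_, ?_, ?_, ?_, ?_, ?_⟩
  · refine hxu.trans ?_
    rw [div_le_one hy7, hB']
    exact hB
  · have h1 : x ^ (-(4/3) : ℝ) ≤ Z := by
      rw [hneg x hx0, hZ]
      refine Real.rpow_le_rpow (by positivity) ?_ (by norm_num)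
      rw [div_le_iff₀ hx0]
      have h2 : y ^ (7/4 : ℝ) / h * (h / y ^ (7/4 : ℝ)) = 1 := by field_simp
      rw [← h2]
      exact mul_le_mul_of_nonneg_left hxl (by positivity)
    have h2 : C1 * Z ≤ y / (8 * δ) := by
      rw [le_div_iff₀ (by positivity)]
      rw [le_div_iff₀ (by positivity)] at hd3
      linarith
    exact (mul_le_mul_of_nonneg_left h1 hC1.le).trans (h2.trans hm2)
  · have h1 : 4 * (y / (4 * δ)) = y / δ := by field_simp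
    have h2 : y / δ ≤ S / δ := div_le_div_of_nonneg_right hyS hδ.le
    linarith
  · rw [hx, div_mul_cancel₀ _ hm7.ne']
  · have h1 : (m : ℝ) * δ ≤ y / 4 := by
      have := mul_le_mul_of_nonneg_right hm1 hδ.le
      refine this.trans (le_of_eq ?_)
      field_simp
    nlinarith
  · rwa [div_le_iff₀ hδ7] at hN1
  · rw [hneg x hx0, ← hB', ← Real.div_rpow (by positivity) hB0.le]
    refine Real.rpow_le_rpow (by positivity) ?_ (by norm_num)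
    rw [le_div_iff₀ hx0]
    have h2 : y ^ (7/4 : ℝ) / h / B * (B * h / y ^ (7/4 : ℝ)) = 1 := by field_simp
    rw [← h2]
    exact mul_le_mul_of_nonneg_left hxu (by positivity)

/-- FTLAT -/
theorem ftlat : S_FTLAT := by
  rintro ⟨a0, ha0, hFM⟩ hFTM
  obtain ⟨B, hB'⟩ : ∃ B : ℝ, B = 2 * 8 ^ (7/4 : ℝ) := ⟨_, rfl⟩
  have hB0 : 0 < B := by rw [hB']; positivity
  refine ⟨a0 / B ^ (4/3 : ℝ), B, by positivity, hB0, fun R => ?_⟩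
  obtain ⟨κ, S, δs, hκ, hS, hδs, -, hsh⟩ := R.shape
  obtain ⟨C1, hC1, h1⟩ := hFM κ hκ
  refine ⟨C1 * S ^ (7/4 : ℝ), S, by positivity, hS, ?_⟩
  intro y h b hy hyS hh hBh hb
  obtain ⟨δ2, hδ2, hch⟩ := choice hy hh hC1 hyS (by rw [← hB']; exact hBh)
  refine ⟨min δs δ2, lt_min hδs hδ2, fun δ hδ hδ' => ?_⟩
  have hd1 : δ ≤ δs := hδ'.trans (min_le_left _ _)
  obtain ⟨m, N, x, hx0, hx1, hxm, hmS, hNx, hmy, hhN, hxZ⟩ :=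
    hch δ hδ (hδ'.trans (min_le_right _ _))
  have h2 := h1 (R.dm δ) (S / δ) x m N (hsh δ hδ hd1) hx0 hx1 hxm hmS hNx
  have hδ7 : 0 < δ ^ (7/4 : ℝ) := Real.rpow_pos_of_pos hδ _
  have h3 : R.prob δ (fun F => (R.curve δ F, R.time δ F) ∈
      {p : X | b < p.2 * (volume (FT p y h)).toReal}) ≤
      E (R.dm δ).edges (fun F => δ ^ (7/4 : ℝ) * (FastT (R.dm δ) F m N : ℝ)) / b := by
    refine pr_le_ex' two_ok hb (fun F => by positivity) fun F hF hA => ?_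
    exact (le_of_lt hA).trans (hFTM R δ y h m N F hδ hmy hhN)
  refine h3.trans ?_
  have h4 : E (R.dm δ).edges (fun F => δ ^ (7/4 : ℝ) * (FastT (R.dm δ) F m N : ℝ)) ≤
      C1 * S ^ (7/4 : ℝ) * Real.exp (-(a0 * x ^ (-(4/3) : ℝ))) := by
    show Ex _ _ _ ≤ _
    rw [Ex_mul_left]
    refine (mul_le_mul_of_nonneg_left h2 hδ7.le).trans (le_of_eq ?_)
    rw [Real.div_rpow hS.le hδ.le]
    field_simp
  have h5 : Real.exp (-(a0 * x ^ (-(4/3) : ℝ))) ≤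
      Real.exp (-(a0 / B ^ (4/3 : ℝ) * (y ^ (7/4 : ℝ) / h) ^ (4/3 : ℝ))) := by
    refine Real.exp_le_exp.mpr (neg_le_neg ?_)
    rw [← hB'] at hxZ
    calc a0 / B ^ (4/3 : ℝ) * (y ^ (7/4 : ℝ) / h) ^ (4/3 : ℝ) =
        a0 * ((y ^ (7/4 : ℝ) / h) ^ (4/3 : ℝ) / B ^ (4/3 : ℝ)) := by ring
      _ ≤ a0 * x ^ (-(4/3) : ℝ) := mul_le_mul_of_nonneg_left hxZ ha0.le
  refine div_le_div_of_nonneg_right (h4.trans ?_) hb.le
  exact mul_le_mul_of_nonneg_left h5 (by positivity)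

end Pool.Agent.Y858.EV
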